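import Pool.Agent.N124.CU.Stm2

set_option autoImplicit false

/-!
# The arms near the special point and near regular points
-/

namespace Pool.Agent.N769.CU

open Filter Topology Pool.Agent.N124.CU

/-- the two positions of `b` for a position of `c` -/
def IRep (P : Par) (p : ℂ → ℂ) (u v : Fin 2 → ℂ → ℂ) : Prop :=
  ∀ᶠ s in 𝓝[≠] (0 : ℂ), ∀ f : ℂ → ℂ → ℂ,
    P.Inner (p s) f = f (u 0 s) (v 0 s) * f (u 1 s) (v 1 s)

theorem comp {P : Par} {z : ℂ} {p q : ℂ → ℂ} (hc : CRep P z p q) {u v u' v' : Fin 2 → ℂ → ℂ}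
    (h1 : IRep P p u v) (h2 : IRep P q u' v') {k0 k1 k2 k3 : Kd}
    {a0 a1 a2 a3 c0 c1 c2 c3 : ℂ} (t0 : Ty k0 (u 0) (v 0) a0 c0) (t1 : Ty k1 (u 1) (v 1) a1 c1)
    (t2 : Ty k2 (u' 0) (v' 0) a2 c2) (t3 : Ty k3 (u' 1) (v' 1) a3 c3) :
    Desc P z ![k0, k1, k2, k3] ![u 0, u 1, u' 0, u' 1] ![v 0, v 1, v' 0, v' 1]
      ![a0, a1, a2, a3] ![c0, c1, c2, c3] := by
  refine ⟨?_, ?_⟩
  · filter_upwards [hc, h1, h2] with s g1 g2 g3
    intro f
    unfold Par.Arm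
    rw [g1, g2, g3, Fin.prod_univ_four]
    show _ = f (u 0 s) (v 0 s) * f (u 1 s) (v 1 s) * f (u' 0 s) (v' 0 s) * f (u' 1 s) (v' 1 s)
    ring
  · intro i
    fin_cases i
    · exact t0
    · exact t1
    · exact t2
    · exact t3

theorem nice {L : Subfield ℂ} {a0 a1 a2 a3 c0 c1 c2 c3 : ℂ}
    (h0 : a0 ∈ L ∧ c0 ∈ L ∧ a0 ≠ 0 ∧ c0 ≠ 0) (h1 : a1 ∈ L ∧ c1 ∈ L ∧ a1 ≠ 0 ∧ c1 ≠ 0)
    (h2 : a2 ∈ L ∧ c2 ∈ L ∧ a2 ≠ 0 ∧ c2 ≠ 0) (h3 : a3 ∈ L ∧ c3 ∈ L ∧ a3 ≠ 0 ∧ c3 ≠ 0) :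
    Nice L ![a0, a1, a2, a3] ![c0, c1, c2, c3] := by
  intro i
  fin_cases i
  · exact h0
  · exact h1
  · exact h2
  · exact h3

/-- finite positions of `b` over a finite position of `c` -/
theorem niceF {P : Par} {L0 L : Subfield ℂ} (G : Gen P L0 L) {p ω : ℂ} (hp : p ∈ L0) (hp0 : p ≠ 0)
    (ha : P.ia p ≠ 0) (hω0 : ω ≠ 0) (hω : P.RI p ω) :
    (1 + ω) ∈ L ∧ (P.de + P.al / ω) ∈ L ∧ 1 + ω ≠ 0 ∧ P.de + P.al / ω ≠ 0 := by
  have hpL := G.le hp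
  have hde := G.le G.mde
  have hal := G.le G.mal
  have hga := G.le G.mga
  have h1 : P.ia p ∈ L := L.sub_mem (L.mul_mem hde hpL) hga
  have h2 : P.ib p ∈ L := L.add_mem (L.mul_mem (L.sub_mem L.one_mem hpL)
    (L.sub_mem (L.mul_mem hde hpL) hga)) (L.mul_mem (L.sub_mem hal G.mbe) hpL)
  have h3 : P.ic p ∈ L := L.mul_mem (L.mul_mem hal hpL) (L.sub_mem L.one_mem hpL)
  have hωL : ω ∈ L := G.qc _ _ _ ω h1 h2 h3 (Or.inl ha) hω
  have he := (P.RI_iff hp0 hω0).1 hω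
  refine ⟨L.add_mem L.one_mem hωL, L.add_mem hde (L.div_mem hal hωL), ?_, ?_⟩
  · intro h
    apply G.nbe
    have hw : ω = -1 := by linear_combination h
    rw [← he, hw]
    refine L0.mul_mem (L0.sub_mem (L0.add_mem L0.one_mem (L0.neg_mem L0.one_mem)) hp) ?_
    exact L0.sub_mem (L0.add_mem G.mde (L0.div_mem G.mal (L0.neg_mem L0.one_mem)))
      (L0.div_mem G.mga hp)
  · intro h
    apply G.nbe
    have hw : ω = -P.al / P.de := by
      have hde0 := G.de0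
      have h4 : P.de * ω + P.al = 0 := by
        have : (P.de + P.al / ω) * ω = P.de * ω + P.al := by field_simp
        rw [← this, h, zero_mul]
      field_simp
      linear_combination h4
    rw [h] at he
    rw [← he, hw]
    refine L0.mul_mem (L0.sub_mem (L0.add_mem L0.one_mem
      (L0.div_mem (L0.neg_mem G.mal) G.mde)) hp) ?_
    exact L0.sub_mem L0.zero_mem (L0.div_mem G.mga hp)

theorem eta_mem {P : Par} {L0 L : Subfield ℂ} (G : Gen P L0 L) {z : ℂ} (hz : z ∈ L0) :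
    P.eta z ∈ L0 := L0.add_mem G.mde (L0.div_mem G.ma1 hz)

theorem arms (hI : S_innI) (hF : S_innF) (hs : S_cs) : S_arms := by
  intro P L0 L G
  have hde0 := G.de0
  have ha10 := G.a10
  have hal0 := G.al0
  have hga0 := G.ga0
  have d1 : P.de - P.ga ≠ 0 := sub_ne_zero.2 G.h1
  have d2 : P.bp - P.a1 ≠ 0 := sub_ne_zero.2 G.h2.symm
  obtain ⟨w, hw⟩ : ∃ w, w = P.ws := ⟨_, rfl⟩
  have hw' : w = (P.bp - P.a1) / (P.de - P.ga) := hw
  have hw0 : w ≠ 0 := by rw [hw']; exact div_ne_zero d2 d1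
  have hwL : w ∈ L0 := by
    rw [hw']
    exact L0.div_mem (L0.sub_mem G.mbp G.ma1) (L0.sub_mem G.mde G.mga)
  have hwm : w * (P.de - P.ga) = P.bp - P.a1 := by rw [hw']; field_simp
  have heta : P.eta w = (P.de * P.bp - P.a1 * P.ga) / (P.bp - P.a1) := by
    unfold Par.eta
    rw [hw']
    field_simp
    ring
  have heta0 : P.eta w ≠ 0 := by
    rw [heta]
    exact div_ne_zero (sub_ne_zero.2 G.h7) d2
  have hbp : P.bp ≠ P.ga * w ^ 2 := by
    intro h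
    apply G.h8
    have h1 : (w * (P.de - P.ga)) ^ 2 = (P.bp - P.a1) ^ 2 := by rw [hwm]
    rw [← h1]
    linear_combination (P.de - P.ga) ^ 2 * h
  have h1w : 1 + w ≠ 0 := by
    intro h
    apply G.h6
    have h2 : w = -1 := by linear_combination h
    rw [h2] at hwm
    linear_combination hwm
  obtain ⟨p, q, hc, hp, hq⟩ := hs P w G.h1 hw' G.h2 heta0 hbp
  have hbp' : P.bp - P.ga * w ^ 2 ≠ 0 := sub_ne_zero.2 hbp
  obtain ⟨c, hcc⟩ : ∃ c, c = (P.bp - P.a1) / (P.bp - P.ga * w ^ 2) := ⟨_, rfl⟩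
  have hc0 : c ≠ 0 := by rw [hcc]; exact div_ne_zero d2 hbp'
  have hcL : c ∈ L0 := by
    rw [hcc]
    exact L0.div_mem (L0.sub_mem G.mbp G.ma1)
      (L0.sub_mem G.mbp (L0.mul_mem G.mga (L0.pow_mem hwL 2)))
  rw [← hcc] at hp
  have hab : P.al ≠ P.be := fun h => G.nbe (h ▸ G.mal)
  have hba : P.be - P.al ≠ 0 := sub_ne_zero.2 hab.symm
  have hab' : P.al - P.be ≠ 0 := sub_ne_zero.2 hab
  obtain ⟨u, v, r1, r2, r3⟩ := hI P p c hal0 G.h1 hab hc0 hp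
  obtain ⟨p', hp'⟩ : ∃ p', p' = (1 + w) * P.ga / P.eta w := ⟨_, rfl⟩
  rw [← hp'] at hq
  have hp'e : p' * P.eta w = (1 + w) * P.ga := by rw [hp']; field_simp
  have hp'0 : p' ≠ 0 := by rw [hp']; exact div_ne_zero (mul_ne_zero h1w hga0) heta0
  have hp'L : p' ∈ L0 := by
    rw [hp']
    exact L0.div_mem (L0.mul_mem (L0.add_mem L0.one_mem hwL) G.mga) (eta_mem G hwL)
  have hetam : P.eta w * (P.bp - P.a1) = P.de * P.bp - P.a1 * P.ga := by
    rw [heta]; field_simp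
  have hetaw : P.eta w * w = P.de * w + P.a1 := by
    unfold Par.eta
    field_simp
  have hp'1 : p' ≠ 1 := by
    intro h
    rw [h, one_mul] at hp'e
    apply G.h8
    rw [hp'e] at hetam
    linear_combination (-(P.de - P.ga)) * hetam + (P.bp - P.a1) * P.ga * hwm
  have hia : P.ia p' ≠ 0 := by
    intro h
    unfold Par.ia at h
    apply G.h9
    have h1 : P.ga * (P.eta w - P.de * (1 + w)) = 0 := by
      linear_combination P.eta w * (-1) * h + P.de * hp'e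
    rcases mul_eq_zero.1 h1 with h2 | h2
    · exact absurd h2 hga0
    · have h3 : P.a1 = P.de * w ^ 2 := by linear_combination w * h2 - hetaw
      have h4 : (w * (P.de - P.ga)) ^ 2 = (P.bp - P.a1) ^ 2 := by rw [hwm]
      rw [← h4]
      linear_combination (-(P.de - P.ga) ^ 2) * h3
  obtain ⟨u', v', ω, r4, r5⟩ := hF P q p' hal0 hia hp'0 hp'1 hq
  obtain ⟨s0, s1, s2⟩ := r5 0
  obtain ⟨s3, s4, s5⟩ := r5 1
  rw [← hw]
  refine ⟨_, _, _, _, comp hc r1 r4 r2 r3 s2 s5, nice ?_ ?_ (niceF G hp'L hp'0 hia s1 s0)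
    (niceF G hp'L hp'0 hia s4 s3)⟩
  · refine ⟨L.div_mem (L.mul_mem (G.le G.mal) (G.le hcL)) (L.sub_mem (G.le G.mal) G.mbe),
      L.div_mem (L.sub_mem (G.le G.mal) G.mbe) (G.le hcL), ?_, ?_⟩
    · exact div_ne_zero (mul_ne_zero hal0 hc0) hab'
    · exact div_ne_zero hab' hc0
  · have m1 : (P.be - P.al) / (P.de - P.ga) ∈ L := L.div_mem (L.sub_mem G.mbe (G.le G.mal))
      (L.sub_mem (G.le G.mde) (G.le G.mga))
    refine ⟨L.add_mem L.one_mem m1, L.add_mem (G.le G.mde) (L.div_mem (G.le G.mal) m1), ?_, ?_⟩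
    · intro h
      apply G.nbe
      have h1 : P.be = P.al - (P.de - P.ga) := by
        field_simp at h
        linear_combination h
      rw [h1]
      exact L0.sub_mem G.mal (L0.sub_mem G.mde G.mga)
    · intro h
      apply G.nbe
      have h1 : P.be = P.al - P.al * (P.de - P.ga) / P.de := by
        field_simp at h
        field_simp
        linear_combination h
      rw [h1]
      exact L0.sub_mem G.mal (L0.div_mem (L0.mul_mem G.mal (L0.sub_mem G.mde G.mga)) G.mde)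

theorem armr (hF : S_innF) (hr : S_cr) : S_armr := by
  intro P L0 L z G hz hzL
  obtain ⟨p, q, p0, q0, hc, h1, h2, h3, h4⟩ := hr P z hz
  have e1 := eta_mem G hzL
  have e2 : P.qb z ∈ L0 := L0.neg_mem (L0.sub_mem (L0.add_mem
    (L0.mul_mem (L0.add_mem L0.one_mem hzL) e1) G.mga) G.mbp)
  have e3 : P.qc z ∈ L0 := L0.mul_mem (L0.add_mem L0.one_mem hzL) G.mga
  have k1 : p0 ∈ L0 := G.qc0 _ _ _ p0 e1 e2 e3 (Or.inl hz.eta0) h1
  have k2 : q0 ∈ L0 := G.qc0 _ _ _ q0 e1 e2 e3 (Or.inl hz.eta0) h2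
  obtain ⟨u, v, ω, r1, r2⟩ := hF P p p0 G.al0 (hz.pa p0 h1) (hz.p0 h1) (hz.p1 p0 h1) h3
  obtain ⟨u', v', ω', r3, r4⟩ := hF P q q0 G.al0 (hz.pa q0 h2) (hz.p0 h2) (hz.p1 q0 h2) h4
  obtain ⟨s0, s1, s2⟩ := r2 0
  obtain ⟨s3, s4, s5⟩ := r2 1
  obtain ⟨s6, s7, s8⟩ := r4 0
  obtain ⟨s9, s10, s11⟩ := r4 1
  exact ⟨_, _, _, _, comp hc r1 r3 s2 s5 s8 s11,
    nice (niceF G k1 (hz.p0 h1) (hz.pa p0 h1) s1 s0) (niceF G k1 (hz.p0 h1) (hz.pa p0 h1) s4 s3)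
      (niceF G k2 (hz.p0 h2) (hz.pa q0 h2) s7 s6) (niceF G k2 (hz.p0 h2) (hz.pa q0 h2) s10 s9)⟩

/-- the arms near the special point and near regular points -/
theorem t_armB : S_armB := fun hI hF hs hr => ⟨arms hI hF hs, armr hF hr⟩

end Pool.Agent.N769.CU
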